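import Pool.Agent.Helper20.EP.Spec1
import Pool.Agent.Helper20.EP.Spec3

/-!
# EP part PAC: sparse sets of `s` have small mass
-/

set_option autoImplicit false
set_option linter.all false

open Polynomial

namespace Pool.Agent.Helper57.EP.PAC

open Pool.Agent.Helper20.EP

lemma th_coeff (f : ℝ[X]) (q : ℕ) (F : ℤ[X]) (j : ℕ) :
    (th f q F).coeff j = f.coeff j - (F.coeff j : ℝ) / q := by
  unfold th
  rw [coeff_sub, coeff_C_mul, coeff_map]
  simp [div_eq_inv_mul]

lemma th_eval (f : ℝ[X]) (q : ℕ) (F : ℤ[X]) (n : ℕ) :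
    (th f q F).eval (n : ℝ) = f.eval (n : ℝ) - ((F.eval (n : ℤ) : ℤ) : ℝ) / q := by
  unfold th
  rw [eval_sub, eval_C_mul, eval_map, eval₂_at_natCast]
  simp [div_eq_inv_mul]

lemma th_deg {f : ℝ[X]} {q : ℕ} {F : ℤ[X]} (h : F.natDegree ≤ f.natDegree) :
    (th f q F).natDegree ≤ f.natDegree := by
  unfold th
  refine (natDegree_sub_le _ _).trans (max_le le_rfl ?_)
  exact ((natDegree_C_mul_le _ _).trans natDegree_map_le).trans h

/-- the value of `th` in terms of `s` -/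
lemma th_key (f : ℝ[X]) {q : ℕ} (hq : 1 ≤ q) (F : ℤ[X]) (n : ℕ) :
    (((-(sn f q F n)) / (q : ℤ) : ℤ) : ℝ) ≤ (th f q F).eval (n : ℝ) ∧
      (th f q F).eval (n : ℝ) < (((-(sn f q F n)) / (q : ℤ) : ℤ) : ℝ) + 2 := by
  have hq0 : (0 : ℝ) < q := by exact_mod_cast hq
  have hqz : (0 : ℤ) < q := by exact_mod_cast hq
  set s := sn f q F n with hs
  set v : ℤ := (-s) / (q : ℤ) with hv
  have h1 : v * q ≤ -s := Int.ediv_mul_le _ hqz.ne'
  have h2 : -s < (v + 1) * q := Int.lt_ediv_add_one_mul_self _ hqz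
  have h1' : (v : ℝ) * q ≤ -(s : ℝ) := by exact_mod_cast h1
  have h2' : -(s : ℝ) < ((v : ℝ) + 1) * q := by exact_mod_cast h2
  have hs' : (s : ℝ) = ((F.eval (n : ℤ) : ℤ) : ℝ) - q * ⌊f.eval (n : ℝ)⌋ := by
    rw [hs]
    unfold sn
    push_cast
    ring
  have h3 : (⌊f.eval (n : ℝ)⌋ : ℝ) ≤ f.eval (n : ℝ) := Int.floor_le _
  have h4 : f.eval (n : ℝ) < ⌊f.eval (n : ℝ)⌋ + 1 := Int.lt_floor_add_one _
  have h5 : (th f q F).eval (n : ℝ) * q = q * (f.eval (n : ℝ) - ⌊f.eval (n : ℝ)⌋) - s := by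
    rw [th_eval, hs']
    field_simp
    ring
  constructor
  · refine le_of_mul_le_mul_right ?_ hq0
    rw [h5]
    nlinarith
  · refine lt_of_mul_lt_mul_right ?_ hq0.le
    rw [h5]
    nlinarith

lemma th_bound {f : ℝ[X]} {N q : ℕ} {F : ℤ[X]} {T : ℝ} (h : App f N q F T) {n : ℕ}
    (hn : n ∈ Finset.Icc 1 N) :
    |(th f q F).eval (n : ℝ)| ≤ |f.coeff 0| + f.natDegree * T := by
  rw [eval_eq_sum_range' (Nat.lt_succ_of_le (th_deg h.deg)), Finset.sum_range_succ']
  refine (abs_add_le _ _).trans ?_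
  rw [add_comm]
  refine add_le_add ?_ ?_
  · rw [th_coeff, h.c0]
    simp
  · refine (Finset.abs_sum_le_sum_abs _ _).trans ?_
    refine (Finset.sum_le_card_nsmul _ _ T ?_).trans ?_
    · intro j _
      rw [th_coeff, abs_mul]
      refine le_trans ?_ (h.app (j + 1) (by omega))
      refine mul_le_mul_of_nonneg_left ?_ (abs_nonneg _)
      rw [abs_of_nonneg (by positivity)]
      have : (n : ℝ) ≤ N := by exact_mod_cast (Finset.mem_Icc.1 hn).2
      gcongr
    · rw [Finset.card_range, nsmul_eq_mul]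

lemma cnt_le {N : ℕ} {P Q : ℕ → Prop} (h : ∀ n ∈ Finset.Icc 1 N, P n → Q n) :
    cnt N P ≤ cnt N Q := by
  classical
  unfold cnt
  norm_cast
  apply Finset.card_le_card
  intro n hn
  rw [Finset.mem_filter] at hn ⊢
  exact ⟨hn.1, h n hn.1 hn.2⟩

lemma cnt_or {N : ℕ} {P Q : ℕ → Prop} : cnt N (fun n => P n ∨ Q n) ≤ cnt N P + cnt N Q := by
  classical
  unfold cnt
  norm_cast
  refine le_trans (Finset.card_le_card ?_) (Finset.card_union_le _ _)
  intro n hn
  simp only [Finset.mem_filter, Finset.mem_union] at hn ⊢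
  tauto

lemma cnt_le_N (N : ℕ) (P : ℕ → Prop) : cnt N P ≤ N := by
  classical
  unfold cnt
  norm_cast
  refine (Finset.card_filter_le _ _).trans ?_
  simp

lemma cnt_false (N : ℕ) : cnt N (fun _ => False) = 0 := by
  classical
  unfold cnt
  simp

lemma cnt_nn (N : ℕ) (P : ℕ → Prop) : 0 ≤ cnt N P := by
  unfold cnt
  positivity

lemma cnt_exists {N : ℕ} {ι : Type*} (S : Finset ι) (P : ι → ℕ → Prop) :
    cnt N (fun n => ∃ i ∈ S, P i n) ≤ ∑ i ∈ S, cnt N (P i) := by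
  classical
  unfold cnt
  norm_cast
  refine le_trans (Finset.card_le_card ?_) (Finset.card_biUnion_le
    (s := S) (t := fun i => (Finset.Icc 1 N).filter (P i)))
  intro n hn
  simp only [Finset.mem_filter] at hn
  obtain ⟨hn1, i, hi, hP⟩ := hn
  rw [Finset.mem_biUnion]
  exact ⟨i, hi, Finset.mem_filter.2 ⟨hn1, hP⟩⟩

lemma sum_cnt_le {N : ℕ} (V : Finset ℤ) (g : ℕ → ℝ) :
    ∑ v ∈ V, cnt N (fun n => (v : ℝ) ≤ g n ∧ g n < v + 2) ≤ 2 * N := by
  classical
  have h1 : ∀ v : ℤ, cnt N (fun n => (v : ℝ) ≤ g n ∧ g n < v + 2) =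
      ∑ n ∈ Finset.Icc 1 N, if ((v : ℝ) ≤ g n ∧ g n < v + 2) then (1 : ℝ) else 0 := by
    intro v
    unfold cnt
    rw [Finset.card_filter]
    push_cast
    rfl
  simp_rw [h1]
  rw [Finset.sum_comm]
  refine (Finset.sum_le_card_nsmul _ _ 2 ?_).trans ?_
  · intro n _
    rw [← Finset.sum_filter, Finset.sum_const, nsmul_eq_mul, mul_one]
    have h2 : (V.filter fun v : ℤ => (v : ℝ) ≤ g n ∧ g n < v + 2) ⊆ {⌊g n⌋, ⌊g n⌋ - 1} := by
      intro v hv
      obtain ⟨-, h3, h4⟩ := Finset.mem_filter.1 hv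
      have h5 : v ≤ ⌊g n⌋ := Int.le_floor.2 h3
      have h6 : ⌊g n⌋ < v + 2 := by
        rw [Int.floor_lt]
        exact_mod_cast h4
      simp only [Finset.mem_insert, Finset.mem_singleton]
      omega
    have h3 := (Finset.card_le_card h2).trans Finset.card_le_two
    exact_mod_cast h3
  · rw [Nat.card_Icc]
    simp [mul_comm]

theorem main (hFIB : S_FIB) (hRUNS : S_RUNS) (hSUBU : S_SUBU) : S_PAC := by
  classical
  intro f hf c hc0 hc1
  set D := f.natDegree with hD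
  set κ : ℝ := c / 2 with hκ
  have hκ0 : 0 < κ := by positivity
  have hκ1 : κ < 1 := by linarith
  have hD0 : (1 : ℝ) ≤ D := by exact_mod_cast hf
  set δ₀ : ℝ := κ / (2 * D) with hδ₀
  have hδ₀0 : 0 < δ₀ := by positivity
  have hκD : κ = δ₀ * (2 * D) := by
    rw [hδ₀]
    field_simp
  have hδ₀1 : δ₀ ≤ 1 := by
    rw [hδ₀, div_le_one (by positivity)]
    linarith
  obtain ⟨C₂, hC₂, hsub⟩ := hSUBU D hf
  obtain ⟨c1, C₁, hc1', hfib⟩ := hFIB D (κ / 2) (by positivity)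
  set C₁' : ℝ := max C₁ 0 with hC₁'
  have hC₁'0 : 0 ≤ C₁' := le_max_right _ _
  set C₃ : ℝ := 2 * |f.coeff 0| + 2 * D + 7 with hC₃
  have hC₃0 : 0 ≤ C₃ := by positivity
  set K₁ : ℝ := 10 * C₂ + 3 * C₁' + (2 + (4 * D + 2) * C₃) with hK₁
  have hK₁0 : 0 ≤ K₁ := by positivity
  set δ : ℝ := min δ₀ (κ * c1) with hδ
  have hδ0 : 0 < δ := lt_min hδ₀0 (by positivity)
  refine ⟨δ / 2, max (max 2 (2 ^ (1 / κ))) ((K₁ + 1) ^ (2 / δ)), by positivity, ?_⟩
  intro N q F T M hdat hM hMN A hA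
  have hM2 : 2 ≤ M := (le_max_left _ _).trans ((le_max_left _ _).trans hM)
  have hM0 : 0 < M := by linarith
  have hM1 : 1 ≤ M := by linarith
  have hMκ : 2 ≤ M ^ κ := by
    have h1 : (2 : ℝ) ^ (1 / κ) ≤ M := (le_max_right _ _).trans ((le_max_left _ _).trans hM)
    have h2 := Real.rpow_le_rpow (by positivity) h1 hκ0.le
    rwa [← Real.rpow_mul (by norm_num), one_div_mul_cancel hκ0.ne', Real.rpow_one] at h2
  have hMδ : K₁ + 1 ≤ M ^ (δ / 2) := by
    have h1 : (K₁ + 1) ^ (2 / δ) ≤ M := (le_max_right _ _).trans hM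
    have h2 := Real.rpow_le_rpow (by positivity) h1 (show 0 ≤ δ / 2 by positivity)
    rwa [← Real.rpow_mul (by positivity), show 2 / δ * (δ / 2) = 1 by field_simp,
      Real.rpow_one] at h2
  have hq1 : 1 ≤ q := hdat.q_pos
  have hq0 : (0 : ℝ) < q := by exact_mod_cast hq1
  have hq1' : (1 : ℝ) ≤ q := by exact_mod_cast hq1
  have hT0 : 0 ≤ T := hdat.T_nn
  have hMq : M = q * (1 + T) := hdat.hM
  have hqM : (q : ℝ) ≤ M := by rw [hMq]; nlinarith
  have hTM : 1 + T ≤ M := by rw [hMq]; nlinarith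
  have hMN' : M ≤ N := by nlinarith
  have hN0 : (0 : ℝ) < N := by linarith
  have hN1 : 1 ≤ N := by
    have : (1 : ℝ) ≤ N := by linarith
    exact_mod_cast this
  set τ : ℝ := M ^ (-δ₀) with hτ
  have hτ0 : 0 < τ := Real.rpow_pos_of_pos hM0 _
  have hτ1 : τ ≤ 1 := Real.rpow_le_one_of_one_le_of_nonpos hM1 (by linarith)
  have hτM : 1 ≤ τ * M := by
    have h1 : τ * M = M ^ (1 - δ₀) := by
      rw [hτ]
      nth_rewrite 2 [← Real.rpow_one M]
      rw [← Real.rpow_add hM0]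
      congr 1
      ring
    rw [h1]
    exact Real.one_le_rpow hM1 (by linarith)
  have hτκ : M ^ (-κ) = τ ^ (2 * D) := by
    rw [hτ, ← Real.rpow_natCast, ← Real.rpow_mul hM0.le]
    congr 1
    rw [hκD]
    push_cast
    ring
  have hτκ2 : M ^ (-(κ / 2)) = τ ^ D := by
    rw [hτ, ← Real.rpow_natCast, ← Real.rpow_mul hM0.le]
    congr 1
    rw [hκD]
    ring
  have hτD : τ ^ D ≤ τ := by
    have := pow_le_pow_of_le_one hτ0.le hτ1 hf
    rwa [pow_one] at this
  have hτN : τ * M ≤ τ * N := mul_le_mul_of_nonneg_left hMN' hτ0.le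
  -- dense values
  let u : ℤ → ℤ := fun s => (-s) / (q : ℤ)
  let Av : ℤ → Finset ℤ := fun v => A.filter fun s => u s = v
  let Dn : Finset ℤ := (A.image u).filter fun v => (q : ℝ) * M ^ (-κ) ≤ ((Av v).card : ℝ)
  have hMκ0 : 0 < M ^ (-κ) := Real.rpow_pos_of_pos hM0 _
  have hDn : (Dn.card : ℝ) ≤ (1 + T) * M ^ (-κ) := by
    have h1 : (Dn.card : ℝ) * (q * M ^ (-κ)) ≤ A.card := by
      have h2 : ∑ v ∈ Dn, ((Av v).card : ℝ) ≤ A.card := by
        rw [Finset.card_eq_sum_card_image u A]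
        push_cast
        exact Finset.sum_le_sum_of_subset_of_nonneg (Finset.filter_subset _ _)
          (fun _ _ _ => Nat.cast_nonneg _)
      refine le_trans ?_ h2
      rw [← nsmul_eq_mul, ← Finset.sum_const]
      exact Finset.sum_le_sum fun v hv => (Finset.mem_filter.1 hv).2
    have h3 : M ^ (1 - c) = M * M ^ (-κ) * M ^ (-κ) := by
      nth_rewrite 2 [← Real.rpow_one M]
      rw [← Real.rpow_add hM0, ← Real.rpow_add hM0]
      congr 1
      rw [hκ]
      ring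
    have h4 : (Dn.card : ℝ) * (q * M ^ (-κ)) ≤ (1 + T) * M ^ (-κ) * (q * M ^ (-κ)) := by
      refine (h1.trans (hA.trans h3.le)).trans (le_of_eq ?_)
      rw [hMq]
      ring
    exact le_of_mul_le_mul_right h4 (by positivity)
  -- part 1
  let P1 : ℕ → Prop := fun n => ⌊(th f q F).eval (n : ℝ)⌋ ∈ Dn ∪ Dn.image (fun v => v + 1)
  have hP1 : cnt N P1 ≤ 10 * C₂ * (τ * N) := by
    by_cases hne : Dn = ∅
    · have h1 : cnt N P1 ≤ 0 := by
        rw [← cnt_false N]
        apply cnt_le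
        intro n _ hn
        have h3 : ⌊(th f q F).eval (n : ℝ)⌋ ∈ Dn ∪ Dn.image (fun v => v + 1) := hn
        rw [hne, Finset.image_empty, Finset.union_empty] at h3
        exact Finset.notMem_empty _ h3
      refine h1.trans ?_
      positivity
    · have hcard1 : (1 : ℝ) ≤ Dn.card := by
        have : 1 ≤ Dn.card := Finset.card_pos.2 (Finset.nonempty_iff_ne_empty.2 hne)
        exact_mod_cast this
      have h1 : 1 ≤ (1 + T) * M ^ (-κ) := hcard1.trans hDn
      have h2 : M ^ κ ≤ 1 + T := by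
        have h3 : M ^ κ * M ^ (-κ) = 1 := by
          rw [← Real.rpow_add hM0, add_neg_cancel, Real.rpow_zero]
        have h4 : M ^ κ * M ^ (-κ) ≤ (1 + T) * M ^ (-κ) := by rw [h3]; exact h1
        exact le_of_mul_le_mul_right h4 hMκ0
      have hT1 : 1 ≤ T := by linarith
      set U : Finset ℤ := Dn ∪ Dn.image (fun v => v + 1) with hU
      have hUc : (U.card : ℝ) ≤ 4 * T * τ ^ (2 * D) := by
        have h3 : U.card ≤ Dn.card + Dn.card :=
          (Finset.card_union_le _ _).trans (Nat.add_le_add_left Finset.card_image_le _)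
        have h4 : (U.card : ℝ) ≤ Dn.card + Dn.card := by exact_mod_cast h3
        rw [← hτκ]
        have h9 : (1 + T) * M ^ (-κ) ≤ 2 * T * M ^ (-κ) :=
          mul_le_mul_of_nonneg_right (by linarith) hMκ0.le
        linarith
      obtain ⟨j, hj1, hjT⟩ := hdat.sharp
      have h5 := hsub (th f q F) N T (th_deg hdat.deg) hN1 (by linarith)
        ⟨j, hj1, by rw [th_coeff, hjT]⟩ U τ hτ0 hτ1
      refine h5.trans ?_
      have h6 : (U.card : ℝ) ≤ 4 * (τ * N) := by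
        have h7 : τ ^ (2 * D) ≤ τ := by
          have := pow_le_pow_of_le_one hτ0.le hτ1 (show 1 ≤ 2 * D by omega)
          rwa [pow_one] at this
        calc (U.card : ℝ) ≤ 4 * T * τ ^ (2 * D) := hUc
          _ ≤ 4 * T * τ := by gcongr
          _ ≤ 4 * (τ * M) := by
              have := mul_le_mul_of_nonneg_left (show T ≤ M by linarith) hτ0.le
              linarith
          _ ≤ 4 * (τ * N) := by linarith
      have h8 : (U.card : ℝ) * (N / (T * τ ^ (D - 1))) ≤ 4 * (τ * N) := by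
        have hTpos : 0 < T := by linarith
        have hτp : 0 < τ ^ (D - 1) := pow_pos hτ0 _
        rw [← mul_div_assoc, div_le_iff₀ (by positivity)]
        have h9 : τ ^ (2 * D) ≤ τ * τ ^ (D - 1) := by
          rw [← pow_succ']
          apply pow_le_pow_of_le_one hτ0.le hτ1
          omega
        calc (U.card : ℝ) * N ≤ (4 * T * τ ^ (2 * D)) * N := by gcongr
          _ ≤ (4 * T * (τ * τ ^ (D - 1))) * N := by gcongr
          _ = 4 * (τ * N) * (T * τ ^ (D - 1)) := by ring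
      have h10 : (1 : ℝ) ≤ τ * N := hτM.trans hτN
      have h11 : τ * N + 1 + U.card * (1 + N / (T * τ ^ (D - 1))) ≤ 10 * (τ * N) := by
        rw [mul_add, mul_one]
        linarith
      calc C₂ * (τ * N + 1 + U.card * (1 + N / (T * τ ^ (D - 1)))) ≤ C₂ * (10 * (τ * N)) :=
            mul_le_mul_of_nonneg_left h11 hC₂.le
        _ = 10 * C₂ * (τ * N) := by ring
  -- `s_n` in `A` with a dense value
  have hcase1 : ∀ n ∈ Finset.Icc 1 N, u (sn f q F n) ∈ Dn → P1 n := by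
    intro n _ hn
    obtain ⟨h1, h2⟩ := th_key f hq1 F n
    have h3 : u (sn f q F n) ≤ ⌊(th f q F).eval (n : ℝ)⌋ := Int.le_floor.2 h1
    have h4 : ⌊(th f q F).eval (n : ℝ)⌋ < u (sn f q F n) + 2 := by
      rw [Int.floor_lt]
      push_cast
      exact h2
    show ⌊(th f q F).eval (n : ℝ)⌋ ∈ Dn ∪ Dn.image (fun v => v + 1)
    rw [Finset.mem_union, Finset.mem_image]
    rcases (show ⌊(th f q F).eval (n : ℝ)⌋ = u (sn f q F n) ∨
        ⌊(th f q F).eval (n : ℝ)⌋ = u (sn f q F n) + 1 by omega) with h5 | h5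
    · left
      rw [h5]
      exact hn
    · right
      exact ⟨_, hn, h5.symm⟩
  -- final comparison
  have hfinal : ∀ x : ℝ, x ≤ K₁ * (N * M ^ (-δ)) → x ≤ N * M ^ (-(δ / 2)) := by
    intro x hx
    refine hx.trans ?_
    have h1 : M ^ (-δ) = M ^ (-(δ / 2)) * M ^ (-(δ / 2)) := by
      rw [← Real.rpow_add hM0]
      congr 1
      ring
    have h2 : K₁ * M ^ (-(δ / 2)) ≤ 1 := by
      have h3 : M ^ (δ / 2) * M ^ (-(δ / 2)) = 1 := by
        rw [← Real.rpow_add hM0, add_neg_cancel, Real.rpow_zero]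
      have h4 : 0 < M ^ (-(δ / 2)) := Real.rpow_pos_of_pos hM0 _
      calc K₁ * M ^ (-(δ / 2)) ≤ M ^ (δ / 2) * M ^ (-(δ / 2)) := by
            apply mul_le_mul_of_nonneg_right _ h4.le
            linarith
        _ = 1 := h3
    have h5 : 0 < M ^ (-(δ / 2)) := Real.rpow_pos_of_pos hM0 _
    rw [h1]
    calc K₁ * (N * (M ^ (-(δ / 2)) * M ^ (-(δ / 2))))
        = (K₁ * M ^ (-(δ / 2))) * (N * M ^ (-(δ / 2))) := by ring
      _ ≤ 1 * (N * M ^ (-(δ / 2))) := by
          apply mul_le_mul_of_nonneg_right h2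
          positivity
      _ = N * M ^ (-(δ / 2)) := one_mul _
  have hτδ : τ ≤ M ^ (-δ) := by
    rw [hτ]
    exact Real.rpow_le_rpow_of_exponent_le hM1 (by have := min_le_left δ₀ (κ * c1); linarith)
  have hτδN : τ * N ≤ N * M ^ (-δ) := by
    rw [mul_comm]
    exact mul_le_mul_of_nonneg_left hτδ hN0.le
  by_cases hqκ : (q : ℝ) < M ^ κ
  · -- all values are dense
    apply hfinal
    have h1 : cnt N (fun n => sn f q F n ∈ A) ≤ cnt N P1 := by
      apply cnt_le
      intro n hn hsA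
      apply hcase1 n hn
      apply Finset.mem_filter.2 ⟨Finset.mem_image_of_mem u hsA, ?_⟩
      have h2 : (1 : ℝ) ≤ ((Av (u (sn f q F n))).card : ℝ) := by
        have : 1 ≤ (Av (u (sn f q F n))).card :=
          Finset.card_pos.2 ⟨sn f q F n, Finset.mem_filter.2 ⟨hsA, rfl⟩⟩
        exact_mod_cast this
      refine le_trans ?_ h2
      have h3 : M ^ κ * M ^ (-κ) = 1 := by
        rw [← Real.rpow_add hM0, add_neg_cancel, Real.rpow_zero]
      rw [← h3]
      exact mul_le_mul_of_nonneg_right hqκ.le hMκ0.le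
    refine h1.trans (hP1.trans ?_)
    calc 10 * C₂ * (τ * N) ≤ 10 * C₂ * (N * M ^ (-δ)) :=
          mul_le_mul_of_nonneg_left hτδN (by positivity)
      _ ≤ K₁ * (N * M ^ (-δ)) := by
          apply mul_le_mul_of_nonneg_right _ (by positivity)
          rw [hK₁]
          have : 0 ≤ (4 * (D : ℝ) + 2) * C₃ := by positivity
          linarith
  push Not at hqκ
  obtain ⟨Exc, hExc1, hExc2, hExc3⟩ : ∃ Exc : Finset ℕ, (Exc.card : ℝ) ≤ C₁ * (q : ℝ) ^ (1 - c1) ∧
      Exc ⊆ Finset.range q ∧ ∀ r : ℕ, r < q → r ∉ Exc →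
        (((Finset.range q).filter fun r' : ℕ =>
          (q : ℤ) ∣ F.eval (r' : ℤ) - F.eval (r : ℤ)).card : ℝ) ≤ (q : ℝ) ^ (κ / 2) := by
    refine ⟨_, hfib F q hdat.deg hq1 hdat.gcd1, Finset.filter_subset _ _, ?_⟩
    intro r hr hr2
    rw [Finset.mem_filter, not_and, not_lt] at hr2
    exact hr2 (Finset.mem_range.2 hr)
  -- part 2
  have hP2 : cnt N (fun n => n % q ∈ Exc) ≤ 3 * C₁' * (N * M ^ (-δ)) := by
    have h1 := hRUNS 0 0 (-1) 1 N q Exc (by simp) hq1 hExc2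
    have h2 : cnt N (fun n => n % q ∈ Exc) ≤
        cnt N (fun n => (-1 : ℝ) ≤ (0 : ℝ[X]).eval (n : ℝ) ∧ (0 : ℝ[X]).eval (n : ℝ) < 1 ∧
          n % q ∈ Exc) := by
      apply cnt_le
      intro n _ hn
      refine ⟨by simp, by simp, hn⟩
    have h3 := cnt_le_N N (fun n => (-1 : ℝ) ≤ (0 : ℝ[X]).eval (n : ℝ) ∧
      (0 : ℝ[X]).eval (n : ℝ) < 1)
    have h4 := (abs_le.1 h1).2
    have h5 : (Exc.card : ℝ) / q ≤ C₁' * M ^ (-δ) := by
      have h6 : (Exc.card : ℝ) ≤ C₁' * (q : ℝ) ^ (1 - c1) :=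
        hExc1.trans (mul_le_mul_of_nonneg_right (le_max_left _ _) (by positivity))
      have h7 : (q : ℝ) ^ (1 - c1) = q ^ (-c1) * q := by
        nth_rewrite 3 [← Real.rpow_one (q : ℝ)]
        rw [← Real.rpow_add hq0]
        congr 1
        ring
      rw [div_le_iff₀ hq0]
      refine h6.trans ?_
      rw [h7, ← mul_assoc]
      apply mul_le_mul_of_nonneg_right _ hq0.le
      apply mul_le_mul_of_nonneg_left _ hC₁'0
      calc (q : ℝ) ^ (-c1) ≤ (M ^ κ) ^ (-c1) := by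
            apply Real.rpow_le_rpow_of_nonpos (by positivity) hqκ (by linarith)
        _ = M ^ (-(κ * c1)) := by
            rw [← Real.rpow_mul hM0.le]
            congr 1
            ring
        _ ≤ M ^ (-δ) := Real.rpow_le_rpow_of_exponent_le hM1
            (by have := min_le_right δ₀ (κ * c1); linarith)
    have h8 : (Exc.card : ℝ) ≤ (Exc.card : ℝ) / q * N := by
      rw [div_mul_eq_mul_div, le_div_iff₀ hq0]
      apply mul_le_mul_of_nonneg_left _ (Nat.cast_nonneg _)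
      linarith
    have h9 : (0 : ℝ) ≤ (Exc.card : ℝ) / q := div_nonneg (Nat.cast_nonneg _) hq0.le
    have h10 : (Exc.card : ℝ) / q * cnt N (fun n => (-1 : ℝ) ≤ (0 : ℝ[X]).eval (n : ℝ) ∧
      (0 : ℝ[X]).eval (n : ℝ) < 1) ≤ (Exc.card : ℝ) / q * N := mul_le_mul_of_nonneg_left h3 h9
    have h11 : (Exc.card : ℝ) / q * N ≤ C₁' * M ^ (-δ) * N :=
      mul_le_mul_of_nonneg_right h5 hN0.le
    have h12 : (4 * ((0 : ℕ) : ℝ) + 2) * (Exc.card : ℝ) = 2 * Exc.card := by simp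
    rw [h12] at h4
    linarith
  -- part 3
  set ηq : ℝ := (q : ℝ) ^ (κ / 2) with hηq
  have hηq0 : 0 ≤ ηq := by positivity
  let R : ℤ → Finset ℕ := fun s => (Finset.range q).filter fun r =>
    r ∉ Exc ∧ (q : ℤ) ∣ F.eval (r : ℤ) - s
  have hR : ∀ s, ((R s).card : ℝ) ≤ ηq := by
    intro s
    by_cases hne : (R s).Nonempty
    · obtain ⟨r0, hr0⟩ := hne
      obtain ⟨h1, h2, h3⟩ := Finset.mem_filter.1 hr0
      refine le_trans ?_ (hExc3 r0 (Finset.mem_range.1 h1) h2)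
      have h4 : R s ⊆ (Finset.range q).filter fun r' : ℕ =>
          (q : ℤ) ∣ F.eval (r' : ℤ) - F.eval (r0 : ℤ) := by
        intro r' hr'
        obtain ⟨h5, -, h6⟩ := Finset.mem_filter.1 hr'
        refine Finset.mem_filter.2 ⟨h5, ?_⟩
        have h7 := dvd_sub h6 h3
        rwa [sub_sub_sub_cancel_right] at h7
      exact_mod_cast Finset.card_le_card h4
    · rw [Finset.not_nonempty_iff_eq_empty.1 hne, Finset.card_empty, Nat.cast_zero]
      exact hηq0
  let B : ℕ := ⌈|f.coeff 0| + D * T⌉₊ + 2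
  let V : Finset ℤ := (Finset.Icc (-(B : ℤ)) B).filter fun v => v ∉ Dn
  let l : ℤ → ℝ := fun v => cnt N fun n => (v : ℝ) ≤ (th f q F).eval (n : ℝ) ∧
    (th f q F).eval (n : ℝ) < v + 2
  have hl0 : ∀ v, 0 ≤ l v := fun v => cnt_nn _ _
  let P3 : ℕ → Prop := fun n => sn f q F n ∈ A ∧ u (sn f q F n) ∉ Dn ∧ n % q ∉ Exc
  have hP3a : cnt N P3 ≤ ∑ v ∈ V, ∑ s ∈ Av v, cnt N (fun n =>
      (v : ℝ) ≤ (th f q F).eval (n : ℝ) ∧ (th f q F).eval (n : ℝ) < v + 2 ∧ n % q ∈ R s) := by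
    have h1 : cnt N P3 ≤ cnt N (fun n => ∃ v ∈ V, ∃ s ∈ Av v, (v : ℝ) ≤
        (th f q F).eval (n : ℝ) ∧ (th f q F).eval (n : ℝ) < v + 2 ∧ n % q ∈ R s) := by
      apply cnt_le
      rintro n hn ⟨hsA, huD, hnE⟩
      obtain ⟨h1, h2⟩ := th_key f hq1 F n
      have h3 := th_bound hdat.toApp hn
      have h4 : |f.coeff 0| + D * T ≤ (⌈|f.coeff 0| + D * T⌉₊ : ℝ) := Nat.le_ceil _
      have h5 := abs_le.1 (h3.trans h4)
      refine ⟨u (sn f q F n), ?_, sn f q F n, ?_, h1, h2, ?_⟩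
      · refine Finset.mem_filter.2 ⟨?_, huD⟩
        rw [Finset.mem_Icc]
        constructor
        · have h6 : (-(B : ℝ)) ≤ (u (sn f q F n) : ℝ) := by
            show (-((⌈|f.coeff 0| + D * T⌉₊ + 2 : ℕ) : ℝ)) ≤ _
            push_cast
            have := h5.1
            have h2' : (th f q F).eval (n : ℝ) < (u (sn f q F n) : ℝ) + 2 := h2
            linarith
          exact_mod_cast h6
        · have h6 : (u (sn f q F n) : ℝ) ≤ (B : ℝ) := by
            show _ ≤ ((⌈|f.coeff 0| + D * T⌉₊ + 2 : ℕ) : ℝ)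
            push_cast
            have := h5.2
            have h1' : (u (sn f q F n) : ℝ) ≤ (th f q F).eval (n : ℝ) := h1
            linarith
          exact_mod_cast h6
      · exact Finset.mem_filter.2 ⟨hsA, rfl⟩
      · refine Finset.mem_filter.2 ⟨Finset.mem_range.2 (Nat.mod_lt _ hq1), hnE, ?_⟩
        have h6 : ((n : ℤ) - ((n % q : ℕ) : ℤ)) ∣ F.eval (n : ℤ) - F.eval ((n % q : ℕ) : ℤ) :=
          Polynomial.sub_dvd_eval_sub _ _ _
        have h7 : (q : ℤ) ∣ (n : ℤ) - ((n % q : ℕ) : ℤ) := by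
          have h8 : n = q * (n / q) + n % q := (Nat.div_add_mod n q).symm
          refine ⟨((n / q : ℕ) : ℤ), ?_⟩
          have h9 : (n : ℤ) = (q : ℤ) * ((n / q : ℕ) : ℤ) + ((n % q : ℕ) : ℤ) := by
            exact_mod_cast h8
          linarith
        have h8 := h7.trans h6
        have h9 : F.eval (n : ℤ) - sn f q F n = q * ⌊f.eval (n : ℝ)⌋ := by
          unfold sn
          ring
        have h10 : F.eval ((n % q : ℕ) : ℤ) - sn f q F n =
            q * ⌊f.eval (n : ℝ)⌋ - (F.eval (n : ℤ) - F.eval ((n % q : ℕ) : ℤ)) := by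
          rw [← h9]
          ring
        rw [h10]
        exact dvd_sub (dvd_mul_right _ _) h8
    refine h1.trans ((cnt_exists V _).trans (Finset.sum_le_sum fun v _ => ?_))
    exact cnt_exists (Av v) _
  have hP3b : ∀ v ∈ V, ∑ s ∈ Av v, cnt N (fun n =>
      (v : ℝ) ≤ (th f q F).eval (n : ℝ) ∧ (th f q F).eval (n : ℝ) < v + 2 ∧ n % q ∈ R s) ≤
        M ^ (-κ) * ηq * (l v + (4 * D + 2) * q) := by
    intro v hv
    have hvD : v ∉ Dn := (Finset.mem_filter.1 hv).2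
    have hAv : ((Av v).card : ℝ) ≤ q * M ^ (-κ) := by
      by_contra hcon
      push Not at hcon
      apply hvD
      refine Finset.mem_filter.2 ⟨?_, hcon.le⟩
      have h1 : 0 < ((Av v).card : ℝ) := lt_of_le_of_lt (by positivity) hcon
      have h2 : 0 < (Av v).card := by exact_mod_cast h1
      obtain ⟨s, hs⟩ := Finset.card_pos.1 h2
      obtain ⟨h3, h4⟩ := Finset.mem_filter.1 hs
      rw [← h4]
      exact Finset.mem_image_of_mem u h3
    have h1 : ∀ s ∈ Av v, cnt N (fun n => (v : ℝ) ≤ (th f q F).eval (n : ℝ) ∧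
        (th f q F).eval (n : ℝ) < v + 2 ∧ n % q ∈ R s) ≤ ηq / q * l v + (4 * D + 2) * ηq := by
      intro s _
      have h2 := hRUNS D (th f q F) v (v + 2) N q (R s) (th_deg hdat.deg) hq1
        (Finset.filter_subset _ _)
      have h3 := (abs_le.1 h2).2
      have h4 : ((R s).card : ℝ) / q * l v ≤ ηq / q * l v := by
        apply mul_le_mul_of_nonneg_right _ (hl0 v)
        exact div_le_div_of_nonneg_right (hR s) hq0.le
      have h5 : (4 * (D : ℝ) + 2) * ((R s).card : ℝ) ≤ (4 * D + 2) * ηq :=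
        mul_le_mul_of_nonneg_left (hR s) (by positivity)
      have h6 : cnt N (fun n => (v : ℝ) ≤ (th f q F).eval (n : ℝ) ∧
        (th f q F).eval (n : ℝ) < v + 2 ∧ n % q ∈ R s) - (R s).card / q * l v ≤
          (4 * D + 2) * (R s).card := h3
      linarith
    refine (Finset.sum_le_card_nsmul _ _ _ h1).trans ?_
    rw [nsmul_eq_mul]
    have h2 : 0 ≤ ηq / q * l v + (4 * D + 2) * ηq := by
      have := hl0 v
      positivity
    refine (mul_le_mul_of_nonneg_right hAv h2).trans (le_of_eq ?_)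
    have h3 : (q : ℝ) * (ηq / q) = ηq := mul_div_cancel₀ _ hq0.ne'
    linear_combination (M ^ (-κ) * l v) * h3
  have hVcard : (q : ℝ) * V.card ≤ C₃ * N := by
    have h1 : V.card ≤ 2 * B + 1 := by
      refine (Finset.card_filter_le _ _).trans ?_
      rw [Int.card_Icc]
      omega
    have h2 : (V.card : ℝ) ≤ 2 * B + 1 := by exact_mod_cast h1
    have h3 : (B : ℝ) ≤ |f.coeff 0| + D * T + 3 := by
      have h4 : (⌈|f.coeff 0| + D * T⌉₊ : ℝ) < |f.coeff 0| + D * T + 1 :=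
        Nat.ceil_lt_add_one (by positivity)
      show ((⌈|f.coeff 0| + D * T⌉₊ + 2 : ℕ) : ℝ) ≤ _
      push_cast
      linarith
    have h5 : (V.card : ℝ) ≤ C₃ * (1 + T) := by
      have h6 : 0 ≤ |f.coeff 0| * T := by positivity
      have h7 : 0 ≤ (D : ℝ) * T := by positivity
      have h8 : C₃ * (1 + T) = 2 * |f.coeff 0| + 2 * D + 7 + 2 * (|f.coeff 0| * T) +
          2 * (D * T) + 7 * T := by
        rw [hC₃]
        ring
      rw [h8]
      linarith
    calc (q : ℝ) * V.card ≤ q * (C₃ * (1 + T)) := mul_le_mul_of_nonneg_left h5 hq0.le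
      _ = C₃ * M := by rw [hMq]; ring
      _ ≤ C₃ * N := mul_le_mul_of_nonneg_left hMN' hC₃0
  have hP3 : cnt N P3 ≤ (2 + (4 * D + 2) * C₃) * (τ * N) := by
    refine (hP3a.trans (Finset.sum_le_sum hP3b)).trans ?_
    rw [← Finset.mul_sum, Finset.sum_add_distrib, Finset.sum_const, nsmul_eq_mul]
    have h1 : ∑ v ∈ V, l v ≤ 2 * N := sum_cnt_le V _
    have h2 : M ^ (-κ) * ηq ≤ τ := by
      have h3 : ηq ≤ M ^ (κ / 2) := Real.rpow_le_rpow hq0.le hqM (by positivity)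
      calc M ^ (-κ) * ηq ≤ M ^ (-κ) * M ^ (κ / 2) := mul_le_mul_of_nonneg_left h3 hMκ0.le
        _ = M ^ (-(κ / 2)) := by
            rw [← Real.rpow_add hM0]
            congr 1
            ring
        _ = τ ^ D := hτκ2
        _ ≤ τ := hτD
    have h4 : ∑ v ∈ V, l v + V.card * ((4 * D + 2) * q) ≤ (2 + (4 * D + 2) * C₃) * N := by
      have h5 : (V.card : ℝ) * ((4 * D + 2) * q) ≤ (4 * D + 2) * (C₃ * N) := by
        calc (V.card : ℝ) * ((4 * D + 2) * q) = (4 * D + 2) * (q * V.card) := by ring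
          _ ≤ (4 * D + 2) * (C₃ * N) := mul_le_mul_of_nonneg_left hVcard (by positivity)
      calc ∑ v ∈ V, l v + V.card * ((4 * D + 2) * q) ≤ 2 * N + (4 * D + 2) * (C₃ * N) :=
            add_le_add h1 h5
        _ = (2 + (4 * D + 2) * C₃) * N := by ring
    have h6 : 0 ≤ (2 + (4 * (D : ℝ) + 2) * C₃) * N := by positivity
    calc M ^ (-κ) * ηq * (∑ v ∈ V, l v + V.card * ((4 * D + 2) * q))
        ≤ M ^ (-κ) * ηq * ((2 + (4 * D + 2) * C₃) * N) :=
          mul_le_mul_of_nonneg_left h4 (by positivity)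
      _ ≤ τ * ((2 + (4 * D + 2) * C₃) * N) := mul_le_mul_of_nonneg_right h2 h6
      _ = (2 + (4 * D + 2) * C₃) * (τ * N) := by ring
  apply hfinal
  have hall : cnt N (fun n => sn f q F n ∈ A) ≤ cnt N P1 + cnt N (fun n => n % q ∈ Exc) +
      cnt N P3 := by
    refine (cnt_le (Q := fun n => (P1 n ∨ n % q ∈ Exc) ∨ P3 n) ?_).trans
      ((cnt_or).trans (add_le_add cnt_or le_rfl))
    intro n hn hsA
    by_cases h1 : u (sn f q F n) ∈ Dn
    · exact Or.inl (Or.inl (hcase1 n hn h1))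
    · by_cases h2 : n % q ∈ Exc
      · exact Or.inl (Or.inr h2)
      · exact Or.inr ⟨hsA, h1, h2⟩
  have hNδ : 0 ≤ (N : ℝ) * M ^ (-δ) := by positivity
  have h1 : 10 * C₂ * (τ * N) ≤ 10 * C₂ * (N * M ^ (-δ)) :=
    mul_le_mul_of_nonneg_left hτδN (by positivity)
  have h2 : (2 + (4 * (D : ℝ) + 2) * C₃) * (τ * N) ≤ (2 + (4 * D + 2) * C₃) * (N * M ^ (-δ)) :=
    mul_le_mul_of_nonneg_left hτδN (by positivity)
  calc cnt N (fun n => sn f q F n ∈ A) ≤ cnt N P1 + cnt N (fun n => n % q ∈ Exc) + cnt N P3 :=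
        hall
    _ ≤ 10 * C₂ * (N * M ^ (-δ)) + 3 * C₁' * (N * M ^ (-δ)) +
        (2 + (4 * D + 2) * C₃) * (N * M ^ (-δ)) := by
        linarith
    _ = K₁ * (N * M ^ (-δ)) := by rw [hK₁]; ring

end Pool.Agent.Helper57.EP.PAC
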