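import Pool.Agent.Helper57.EP.HityAlg
import Pool.Agent.Helper20.EP.Spec2

/-!
# EP part HITY: a set of bijections is stable for few `s` or for all but few `s`
-/

set_option autoImplicit false
set_option linter.all false

open Polynomial

namespace Pool.Agent.Helper57.EP

open Pool.Agent.Helper20.EP

variable {d : ℕ}

/-- one factor of a vanishing product of analytic functions vanishes -/
lemma prod_zero {ι : Type*} (s : Finset ι) (f : ι → ℂ → ℂ) (U : Set ℂ) (hU : IsPreconnected U)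
    (hne : U.Nonempty) (hf : ∀ i ∈ s, AnalyticOnNhd ℂ (f i) U)
    (h : ∀ z ∈ U, ∏ i ∈ s, f i z = 0) : ∃ i ∈ s, ∀ z ∈ U, f i z = 0 := by
  classical
  induction s using Finset.induction_on with
  | empty =>
    obtain ⟨z, hz⟩ := hne
    have := h z hz
    rw [Finset.prod_empty] at this
    exact absurd this one_ne_zero
  | insert a s ha ih =>
    have h1 : ∀ z ∈ U, f a z * ∏ i ∈ s, f i z = 0 := by
      intro z hz
      have h0 := h z hz
      rwa [Finset.prod_insert ha] at h0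
    have h2 : AnalyticOnNhd ℂ (fun z => ∏ i ∈ s, f i z) U :=
      Finset.analyticOnNhd_fun_prod s fun i hi => hf i (Finset.mem_insert_of_mem hi)
    rcases AnalyticOnNhd.eq_zero_or_eq_zero_of_mul_eq_zero (hf a (Finset.mem_insert_self _ _)) h2
      h1 hU with h3 | h3
    · exact ⟨a, Finset.mem_insert_self _ _, h3⟩
    · obtain ⟨i, hi, h4⟩ := ih (fun i hi => hf i (Finset.mem_insert_of_mem hi)) h3
      exact ⟨i, Finset.mem_insert_of_mem hi, h4⟩

section field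

variable {S : Finset ℤ} {ξ : Fin d → ℂ → ℂ} {L : Type} [Field L] [NumberField L] {ι : L →+* ℂ}
  {x : ℤ → Fin d → L} {g : ℤ → (L ≃ₐ[ℚ] L) →* Equiv.Perm (Fin d)}

lemma integral_x (hMON : S_MON) {F : ℤ[X]} {M ρ c₀ : ℝ} (hd : 1 ≤ d) (hL : Lab d F M ρ c₀ ξ)
    (hsys : Sys d S ξ L ι x g) {s : ℤ} (hs : s ∈ S)
    (hsb : (s : ℂ) ∈ Metric.ball (c₀ : ℂ) (ρ * M)) (i : Fin d) : IsIntegral ℤ (x s i) := by
  have hF : 1 ≤ F.natDegree := by rw [hL.deg]; exact hd
  obtain ⟨hm, -, hmap, -⟩ := hMON F s hF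
  refine ⟨mon F s, hm, ?_⟩
  apply ι.injective
  rw [map_zero, hom_eval₂, hsys.emb s hs i]
  have h1 : ι.comp (algebraMap ℤ L) = Int.castRingHom ℂ := RingHom.ext_int _ _
  rw [h1, ← eval_map, hmap]
  have h2 : (monC F ((s : ℤ) : ℂ)) = ∏ i, (X - C (ξ i (s : ℂ))) := hL.roots _ hsb
  rw [h2, eval_prod]
  exact Finset.prod_eq_zero (Finset.mem_univ i) (by simp)

lemma integral_Eu {s s' : ℤ} (h1 : ∀ i, IsIntegral ℤ (x s i)) (h2 : ∀ i, IsIntegral ℤ (x s' i))
    (K κ u : ℕ) (Y : Finset (Equiv.Perm (Fin d))) : IsIntegral ℤ (Eu K κ u (x s) (x s') Y) := by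
  have key : Eu K κ u (x s) (x s') Y ∈ integralClosure ℤ L := by
    unfold Eu Zu
    refine Subalgebra.prod_mem _ fun σ _ => Subalgebra.sub_mem _ (natCast_mem _ _)
      (Subalgebra.prod_mem _ fun i _ => Subalgebra.sub_mem _ (Subalgebra.sub_mem _
        (natCast_mem _ _) (h1 i)) (Subalgebra.mul_mem _ (natCast_mem _ _) (h2 _)))
  exact key

lemma emb_Eu (hsys : Sys d S ξ L ι x g) {s s' : ℤ} (hs : s ∈ S) (hs' : s' ∈ S) (K κ u : ℕ)
    (Y : Finset (Equiv.Perm (Fin d))) : ι (Eu K κ u (x s) (x s') Y) =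
      Eu K κ u (fun i => ξ i (s : ℂ)) (fun i => ξ i (s' : ℂ)) Y := by
  rw [map_Eu]
  congr 1
  · funext i
    exact hsys.emb s hs i
  · funext i
    exact hsys.emb s' hs' i

lemma act_Eu (hsys : Sys d S ξ L ι x g) {s s' : ℤ} (hs : s ∈ S) (hs' : s' ∈ S) (K κ u : ℕ)
    (Y : Finset (Equiv.Perm (Fin d))) (γ : L ≃ₐ[ℚ] L) : γ (Eu K κ u (x s) (x s') Y) =
      Eu K κ u (x s) (x s') (Y.image fun σ => g s' γ * σ * (g s γ)⁻¹) := by
  rw [← Eu_perm]
  have h := map_Eu (γ : L →+* L) K κ u (x s) (x s') Y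
  have h1 : (fun i => (γ : L →+* L) (x s i)) = fun i => x s (g s γ i) := by
    funext i
    exact hsys.act s hs γ i
  have h2 : (fun i => (γ : L →+* L) (x s' i)) = fun i => x s' (g s' γ i) := by
    funext i
    exact hsys.act s' hs' γ i
  rw [h1, h2] at h
  exact h

lemma stab_image {Γ : Type} [Group Γ] {g : ℤ → Γ →* Equiv.Perm (Fin d)}
    {Y : Finset (Equiv.Perm (Fin d))} {s s' : ℤ} :
    Stab g Y s s' ↔ ∀ γ, (Y.image fun σ => g s' γ * σ * (g s γ)⁻¹) = Y := by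
  classical
  constructor
  · intro h γ
    apply Finset.eq_of_subset_of_card_le
    · intro τ hτ
      obtain ⟨σ, hσ, rfl⟩ := Finset.mem_image.1 hτ
      exact h γ σ hσ
    · rw [Finset.card_image_of_injective]
      intro σ σ' hh
      simpa using hh
  · intro h γ σ hσ
    have := Finset.mem_image_of_mem (fun σ => g s' γ * σ * (g s γ)⁻¹) hσ
    rw [h γ] at this
    exact this

lemma int_of_stab [IsGalois ℚ L] (hsys : Sys d S ξ L ι x g) {s s' : ℤ} (hs : s ∈ S)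
    (hs' : s' ∈ S) (h1 : ∀ i, IsIntegral ℤ (x s i)) (h2 : ∀ i, IsIntegral ℤ (x s' i))
    (K κ u : ℕ) {Y : Finset (Equiv.Perm (Fin d))} (hY : Stab g Y s s') :
    ∃ z : ℤ, Eu K κ u (fun i => ξ i (s : ℂ)) (fun i => ξ i (s' : ℂ)) Y = z := by
  rw [stab_image] at hY
  have hfix : ∀ γ : L ≃ₐ[ℚ] L, γ (Eu K κ u (x s) (x s') Y) = Eu K κ u (x s) (x s') Y := by
    intro γ
    rw [act_Eu hsys hs hs', hY γ]
  have hbot := (IsGalois.mem_bot_iff_fixed (F := ℚ) (E := L) _).2 hfix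
  obtain ⟨r, hr⟩ := IntermediateField.mem_bot.1 hbot
  have hint := integral_Eu (x := x) h1 h2 K κ u Y
  rw [← hr] at hint
  have hint' : IsIntegral ℤ r := (isIntegral_algebraMap_iff (algebraMap ℚ L).injective).1 hint
  obtain ⟨z, hz⟩ := IsIntegrallyClosed.isIntegral_iff.1 hint'
  refine ⟨z, ?_⟩
  rw [← emb_Eu hsys hs hs', ← hr, ← hz]
  simp

lemma stab_of_rat (hsys : Sys d S ξ L ι x g) {s s' : ℤ} (hs : s ∈ S) (hs' : s' ∈ S)
    (K κ u : ℕ) {Y : Finset (Equiv.Perm (Fin d))}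
    (hinj : Function.Injective (Eu K κ u (fun i => ξ i (s : ℂ)) (fun i => ξ i (s' : ℂ))))
    {r : ℚ} (hr : Eu K κ u (fun i => ξ i (s : ℂ)) (fun i => ξ i (s' : ℂ)) Y = (r : ℂ)) :
    Stab g Y s s' := by
  rw [stab_image]
  intro γ
  apply hinj
  rw [← emb_Eu hsys hs hs', ← emb_Eu hsys hs hs', ← act_Eu hsys hs hs']
  have h1 : Eu K κ u (x s) (x s') Y = (r : L) := by
    apply ι.injective
    rw [emb_Eu hsys hs hs', hr, map_ratCast]
  rw [h1, map_ratCast]

end field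

lemma norm_Zu {M : ℝ} {B K κ : ℕ} (hM : 2 * (B : ℝ) + 2 ≤ M) (hK : K ≤ B) (hκ : κ ≤ B)
    {a b : Fin d → ℂ} (ha : ∀ i, ‖a i‖ ≤ M ^ 3) (hb : ∀ i, ‖b i‖ ≤ M ^ 3)
    (σ : Equiv.Perm (Fin d)) : ‖Zu K κ a b σ‖ ≤ M ^ (4 * d) := by
  have hB : (0 : ℝ) ≤ B := Nat.cast_nonneg _
  have hM1 : 1 ≤ M := by linarith
  have hM3 : 1 ≤ M ^ 3 := one_le_pow₀ hM1
  have hK' : (K : ℝ) ≤ B := by exact_mod_cast hK
  have hκ' : (κ : ℝ) ≤ B := by exact_mod_cast hκ
  unfold Zu
  rw [norm_prod]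
  refine (Finset.prod_le_prod (g := fun _ => M ^ 4) (fun _ _ => norm_nonneg _)
    fun i _ => ?_).trans ?_
  · refine (norm_sub_le _ _).trans ?_
    have h1 : ‖(K : ℂ) - a i‖ ≤ B + M ^ 3 := by
      refine (norm_sub_le _ _).trans (add_le_add ?_ (ha i))
      rw [Complex.norm_natCast]
      exact hK'
    have h2 : ‖(κ : ℂ) * b (σ i)‖ ≤ B * M ^ 3 := by
      rw [norm_mul, Complex.norm_natCast]
      exact mul_le_mul hκ' (hb _) (norm_nonneg _) hB
    calc ‖(K : ℂ) - a i‖ + ‖(κ : ℂ) * b (σ i)‖ ≤ (B + M ^ 3) + B * M ^ 3 := add_le_add h1 h2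
      _ ≤ M * M ^ 3 := by nlinarith
      _ = M ^ 4 := by ring
  · rw [Finset.prod_const, Finset.card_univ, Fintype.card_fin, ← pow_mul]

lemma norm_Eu {M : ℝ} {B K κ u : ℕ} (hM : 2 * (B : ℝ) + 2 ≤ M) (hK : K ≤ B) (hκ : κ ≤ B)
    (hu : u ≤ B) {a b : Fin d → ℂ} (ha : ∀ i, ‖a i‖ ≤ M ^ 3) (hb : ∀ i, ‖b i‖ ≤ M ^ 3)
    (Y : Finset (Equiv.Perm (Fin d))) :
    ‖Eu K κ u a b Y‖ ≤ M ^ ((4 * d + 1) * Fintype.card (Equiv.Perm (Fin d))) := by
  have hB : (0 : ℝ) ≤ B := Nat.cast_nonneg _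
  have hM1 : 1 ≤ M := by linarith
  have hu' : (u : ℝ) ≤ B := by exact_mod_cast hu
  have hMd : 1 ≤ M ^ (4 * d) := one_le_pow₀ hM1
  unfold Eu
  rw [norm_prod]
  refine (Finset.prod_le_prod (g := fun _ => M ^ (4 * d + 1)) (fun _ _ => norm_nonneg _)
    fun σ _ => ?_).trans ?_
  · refine (norm_sub_le _ _).trans ?_
    have h1 := norm_Zu hM hK hκ ha hb σ
    rw [Complex.norm_natCast]
    calc (u : ℝ) + ‖Zu K κ a b σ‖ ≤ B + M ^ (4 * d) := add_le_add hu' h1
      _ ≤ M ^ (4 * d) * M := by nlinarith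
      _ = M ^ (4 * d + 1) := by ring
  · rw [Finset.prod_const, ← pow_mul]
    refine pow_le_pow_right₀ hM1 (Nat.mul_le_mul_left _ ?_)
    exact Finset.card_le_univ Y

lemma diff_Eu {U : Set ℂ} {a : Fin d → ℂ → ℂ} (ha : ∀ i, DifferentiableOn ℂ (a i) U)
    (K κ u : ℕ) (b : Fin d → ℂ) (Y : Finset (Equiv.Perm (Fin d))) :
    DifferentiableOn ℂ (fun w => Eu K κ u (fun i => a i w) b Y) U := by
  unfold Eu Zu
  refine DifferentiableOn.fun_finsetProd fun σ _ => ?_
  refine DifferentiableOn.sub (differentiableOn_const _) ?_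
  refine DifferentiableOn.fun_finsetProd fun i _ => ?_
  exact DifferentiableOn.sub (DifferentiableOn.sub (differentiableOn_const _) (ha i))
    (differentiableOn_const _)

/-- the parameters -/
noncomputable def bb (d : ℕ) : Fin d → MvPolynomial (Fin d) (MvPolynomial (Option (Fin d)) ℤ) :=
  fun j => MvPolynomial.C (MvPolynomial.X (some j))

/-- the first universal polynomial -/
noncomputable def f1 (K κ u : ℕ) (Y : Finset (Equiv.Perm (Fin d))) :
    MvPolynomial (Fin d) (MvPolynomial (Option (Fin d)) ℤ) :=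
  MvPolynomial.C (MvPolynomial.X none) -
    Eu K κ u MvPolynomial.X (bb d) Y

open Classical in
/-- the second universal polynomial -/
noncomputable def f2 (K κ u : ℕ) :
    MvPolynomial (Fin d) (MvPolynomial (Option (Fin d)) ℤ) :=
  ∏ P : Finset (Equiv.Perm (Fin d)) × Finset (Equiv.Perm (Fin d)),
    if P.1 = P.2 then 1 else
      Eu K κ u MvPolynomial.X (bb d) P.1 -
      Eu K κ u MvPolynomial.X (bb d) P.2

lemma eval_Eu (K κ u : ℕ) (Y : Finset (Equiv.Perm (Fin d)))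
    (φ : MvPolynomial (Option (Fin d)) ℤ →+* ℂ) (a : Fin d → ℂ) :
    MvPolynomial.eval₂ φ a (Eu K κ u MvPolynomial.X
      (bb d) Y) =
      Eu K κ u a (fun j => φ (MvPolynomial.X (some j))) Y := by
  have h := map_Eu (MvPolynomial.eval₂Hom φ a) K κ u MvPolynomial.X
    (bb d) Y
  simpa [bb] using h

lemma eval_f1 (K κ u : ℕ) (Y : Finset (Equiv.Perm (Fin d))) (a b : Fin d → ℂ) (t : ℂ) :
    MvPolynomial.eval₂ (MvPolynomial.eval₂Hom (Int.castRingHom ℂ) fun o => Option.elim o t b) a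
      (f1 K κ u Y) = t - Eu K κ u a b Y := by
  unfold f1
  rw [MvPolynomial.eval₂_sub, eval_Eu]
  simp

lemma eval_f2 (K κ u : ℕ) (a b : Fin d → ℂ) (t : ℂ) :
    MvPolynomial.eval₂ (MvPolynomial.eval₂Hom (Int.castRingHom ℂ) fun o => Option.elim o t b) a
      (f2 K κ u) ≠ 0 ↔ Function.Injective (Eu K κ u a b) := by
  classical
  have h1 : MvPolynomial.eval₂ (MvPolynomial.eval₂Hom (Int.castRingHom ℂ)
      fun o => Option.elim o t b) a (f2 K κ u) =
      ∏ P : Finset (Equiv.Perm (Fin d)) × Finset (Equiv.Perm (Fin d)),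
        if P.1 = P.2 then 1 else Eu K κ u a b P.1 - Eu K κ u a b P.2 := by
    unfold f2
    rw [← MvPolynomial.coe_eval₂Hom, map_prod]
    refine Finset.prod_congr rfl fun P _ => ?_
    split_ifs with h
    · exact map_one _
    · rw [map_sub, MvPolynomial.coe_eval₂Hom, eval_Eu, eval_Eu]
      simp
  rw [h1, Finset.prod_ne_zero_iff]
  constructor
  · intro h Y Y' hYY
    by_contra hne
    apply h (Y, Y') (Finset.mem_univ _)
    rw [if_neg hne]
    exact sub_eq_zero.2 hYY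
  · intro h P _
    split_ifs with hP
    · exact one_ne_zero
    · intro h2
      exact hP (h (sub_eq_zero.1 h2))

theorem hity (hDET : S_DET) (hMON : S_MON) : S_HITY := by
  classical
  intro d hd
  obtain ⟨m, c, hc0, hc1, hdet⟩ := hDET ((4 * d + 1) * Fintype.card (Equiv.Perm (Fin d)))
  refine ⟨c, hc0, hc1, fun ρ hρ => ?_⟩
  let J := Fin (box d + 1) × Fin (box d + 1) × Fin (box d + 1)
  let e : J ≃ Fin (Fintype.card J) := Fintype.equivFin J
  choose B1 hB1 using fun (j : J) (Y : Finset (Equiv.Perm (Fin d))) =>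
    norm_poly hd (f1 (d := d) j.1 j.2.1 j.2.2 Y)
  choose B2 hB2 using fun (j : J) => norm_poly hd (f2 (d := d) j.1 j.2.1 j.2.2)
  let D1 : ℕ := ∑ j : J, ∑ Y : Finset (Equiv.Perm (Fin d)), B1 j Y
  let D2 : ℕ := ∑ j : J, B2 j
  have hD1 : ∀ j Y, B1 j Y ≤ D1 := by
    intro j Y
    refine le_trans ?_ (Finset.single_le_sum (f := fun j => ∑ Y, B1 j Y)
      (fun _ _ => Nat.zero_le _) (Finset.mem_univ j))
    exact Finset.single_le_sum (f := fun Y => B1 j Y) (fun _ _ => Nat.zero_le _)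
      (Finset.mem_univ Y)
  have hD2 : ∀ j, B2 j ≤ D2 := fun j => Finset.single_le_sum (f := fun j => B2 j)
    (fun _ _ => Nat.zero_le _) (Finset.mem_univ j)
  obtain ⟨C₁, M₁, hdet⟩ := hdet ρ (Fintype.card J) (D1 * (m + 1)) hρ
  refine ⟨max C₁ D2, max M₁ (2 * (box d : ℝ) + 2), ?_⟩
  intro F M c₀ ξ S L _ _ _ ι x g hL hM hS hsys s' hs' Y
  have hMM1 : M₁ ≤ M := (le_max_left _ _).trans hM
  have hMB : 2 * (box d : ℝ) + 2 ≤ M := (le_max_right _ _).trans hM
  have hB0 : (0 : ℝ) ≤ box d := Nat.cast_nonneg _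
  have hM1 : 1 ≤ M := by linarith
  have hMpos : 0 < ρ * M := by positivity
  have hpow : 1 ≤ M ^ (1 - c) := Real.one_le_rpow hM1 (by linarith)
  have hpow0 : 0 ≤ M ^ (1 - c) := by linarith
  have hball : ∀ s ∈ S, ((s : ℤ) : ℂ) ∈ Metric.ball (c₀ : ℂ) (ρ * M) := by
    intro s hs
    rw [Metric.mem_ball, dist_eq_norm]
    have h1 : ((s : ℤ) : ℂ) - (c₀ : ℂ) = (((s : ℝ) - c₀ : ℝ) : ℂ) := by push_cast; rfl
    rw [h1, Complex.norm_real, Real.norm_eq_abs]
    have := hS s hs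
    linarith
  by_cases hbig : C₁ * M ^ (1 - c) < ((S.filter fun s => Stab g Y s s').card : ℝ)
  swap
  · left
    exact (not_lt.1 hbig).trans (mul_le_mul_of_nonneg_right (le_max_left _ _) hpow0)
  right
  have hint : ∀ s ∈ S, ∀ i, IsIntegral ℤ (x s i) := fun s hs i =>
    integral_x hMON hd hL hsys hs (hball s hs) i
  set b : Fin d → ℂ := fun i => ξ i (s' : ℂ) with hb
  have hbM : ∀ i, ‖b i‖ ≤ M ^ 3 := fun i => hL.bd i _ (hball s' hs')
  have hbinj : Function.Injective b := hL.inj _ (hball s' hs')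
  have hjle : ∀ a : Fin (box d + 1), (a : ℕ) ≤ box d := fun a => Nat.lt_succ_iff.1 a.2
  obtain ⟨Q, S', hS', hS'card, hQ⟩ := hdet M c₀ (fun (j : Fin (Fintype.card J)) w =>
    Eu (e.symm j).1 (e.symm j).2.1 (e.symm j).2.2 (fun i => ξ i w) b Y)
    (S.filter fun s => Stab g Y s s') hMM1
    (fun j => diff_Eu (fun i => hL.diff i) _ _ _ b Y)
    (fun j w hw => norm_Eu hMB (hjle _) (hjle _) (hjle _) (fun i => hL.bd i w hw) hbM Y)
    (fun s hs => hS s (Finset.mem_filter.1 hs).1)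
    (fun s hs j => by
      obtain ⟨hs1, hs2⟩ := Finset.mem_filter.1 hs
      exact int_of_stab hsys hs1 hs' (hint s hs1) (hint s' hs') _ _ _ hs2)
    hbig
  -- a separating parameter
  obtain ⟨s₁, hs₁⟩ : S'.Nonempty := Finset.card_pos.1 (by omega)
  have hs₁S : s₁ ∈ S := (Finset.mem_filter.1 (hS' hs₁)).1
  obtain ⟨K, κ, u, hK, hκ, hu, hsep⟩ := exists_sep (fun i => ξ i (s₁ : ℂ)) b
    (hL.inj _ (hball s₁ hs₁S)) hbinj
  let j : J := (⟨K, by omega⟩, ⟨κ, by omega⟩, ⟨u, by omega⟩)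
  obtain ⟨hQdeg, hQev⟩ := hQ (e j)
  simp only [Equiv.symm_apply_apply] at hQev
  let Q' : ℂ[X] := (Q (e j)).map (algebraMap ℚ ℂ)
  have hQ'ev : ∀ w : ℂ, aeval w (Q (e j)) = Q'.eval w := by
    intro w
    rw [aeval_def, eval_map]
  have hQ'deg : Q'.natDegree ≤ m + 1 := by
    refine (natDegree_map_le).trans ?_
    omega
  obtain ⟨q, hqdeg, hq⟩ := hB1 j Y F b Q' (m + 1) hL.deg hQ'deg (by omega)
  have hqw : ∀ w ∈ Metric.ball (c₀ : ℂ) (ρ * M), q.eval w =
      ∏ τ : Equiv.Perm (Fin d), (Q'.eval w - Eu K κ u (fun i => ξ (τ i) w) b Y) := by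
    intro w hw
    rw [hq w (fun i => ξ i w) (hL.roots w hw)]
    refine Finset.prod_congr rfl fun τ _ => ?_
    exact eval_f1 K κ u Y (fun i => ξ (τ i) w) b (Q'.eval w)
  have hq0 : q = 0 := by
    refine Polynomial.eq_zero_of_natDegree_lt_card_of_eval_eq_zero' q
      (S'.image fun s : ℤ => (s : ℂ)) ?_ ?_
    · intro w hw
      obtain ⟨s, hs, rfl⟩ := Finset.mem_image.1 hw
      have hsS : s ∈ S := (Finset.mem_filter.1 (hS' hs)).1
      rw [hqw _ (hball s hsS)]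
      apply Finset.prod_eq_zero (Finset.mem_univ (1 : Equiv.Perm (Fin d)))
      rw [← hQ'ev, ← hQev s hs]
      exact sub_eq_zero.2 rfl
    · rw [Finset.card_image_of_injective _ Int.cast_injective]
      refine lt_of_le_of_lt (hqdeg.trans (Nat.mul_le_mul_right _ (hD1 j Y))) hS'card
  have hopen : IsOpen (Metric.ball (c₀ : ℂ) (ρ * M)) := Metric.isOpen_ball
  obtain ⟨τ, -, hτ⟩ := prod_zero (Finset.univ : Finset (Equiv.Perm (Fin d)))
    (fun τ w => Q'.eval w - Eu K κ u (fun i => ξ (τ i) w) b Y) (Metric.ball (c₀ : ℂ) (ρ * M))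
    (convex_ball _ _).isPreconnected ⟨(c₀ : ℂ), Metric.mem_ball_self hMpos⟩
    (fun τ _ => by
      apply DifferentiableOn.analyticOnNhd _ hopen
      exact DifferentiableOn.sub Q'.differentiable.differentiableOn
        (diff_Eu (fun i => hL.diff (τ i)) _ _ _ b Y))
    (fun w hw => by
      rw [← hqw w hw, hq0, eval_zero])
  have hperm : ∀ w, Eu K κ u (fun i => ξ (τ i) w) b Y =
      Eu K κ u (fun i => ξ i w) b (Y.image fun σ => 1 * σ * τ⁻¹) := by
    intro w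
    rw [← Eu_perm]
    rfl
  have hYτ : (Y.image fun σ => 1 * σ * τ⁻¹) = Y := by
    apply hsep
    rw [← hperm, ← sub_eq_zero.1 (hτ _ (hball s₁ hs₁S)), ← hQ'ev]
    exact (hQev s₁ hs₁).symm
  have hall : ∀ w ∈ Metric.ball (c₀ : ℂ) (ρ * M),
      Eu K κ u (fun i => ξ i w) b Y = Q'.eval w := by
    intro w hw
    rw [sub_eq_zero.1 (hτ w hw), hperm, hYτ]
  -- the exceptions
  obtain ⟨q2, hq2deg, hq2⟩ := hB2 j F b 0 1 hL.deg (by simp) le_rfl
  have hq2w : ∀ w ∈ Metric.ball (c₀ : ℂ) (ρ * M), (q2.eval w ≠ 0 ↔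
      ∀ τ : Equiv.Perm (Fin d), Function.Injective (Eu K κ u (fun i => ξ (τ i) w) b)) := by
    intro w hw
    rw [hq2 w (fun i => ξ i w) (hL.roots w hw), Finset.prod_ne_zero_iff]
    constructor
    · intro h τ
      exact (eval_f2 K κ u (fun i => ξ (τ i) w) b _).1 (h τ (Finset.mem_univ _))
    · intro h τ _
      exact (eval_f2 K κ u (fun i => ξ (τ i) w) b _).2 (h τ)
  have hq20 : q2 ≠ 0 := by
    intro h0
    have h1 := (hq2w _ (hball s₁ hs₁S)).2 (by
      intro τ Y₁ Y₂ h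
      have e1 : ∀ Y : Finset (Equiv.Perm (Fin d)), Eu K κ u (fun i => ξ (τ i) (s₁ : ℂ)) b Y =
          Eu K κ u (fun i => ξ i (s₁ : ℂ)) b (Y.image fun σ => 1 * σ * τ⁻¹) := by
        intro Y
        rw [← Eu_perm]
        rfl
      rw [e1, e1] at h
      have h2 := hsep h
      refine Finset.image_injective ?_ h2
      intro σ σ' hh
      simpa using hh)
    rw [h0, eval_zero] at h1
    exact h1 rfl
  have hcard : (S.filter fun s => ¬ Stab g Y s s').card ≤ D2 := by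
    have h1 : (S.filter fun s => ¬ Stab g Y s s').card ≤ q2.natDegree := by
      by_contra hcon
      apply hq20
      refine Polynomial.eq_zero_of_natDegree_lt_card_of_eval_eq_zero' q2
        ((S.filter fun s => ¬ Stab g Y s s').image fun s : ℤ => (s : ℂ)) ?_ ?_
      · intro w hw
        obtain ⟨s, hs, rfl⟩ := Finset.mem_image.1 hw
        obtain ⟨hsS, hns⟩ := Finset.mem_filter.1 hs
        by_contra hne
        apply hns
        have h2 := (hq2w _ (hball s hsS)).1 hne 1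
        have h3 : Eu K κ u (fun i => ξ i (s : ℂ)) b Y =
            (((Q (e j)).eval (s : ℚ) : ℚ) : ℂ) := by
          rw [hall _ (hball s hsS), ← hQ'ev]
          have h4 : ((s : ℤ) : ℂ) = algebraMap ℚ ℂ (s : ℚ) := by simp
          rw [h4, aeval_algebraMap_apply]
          simp
        exact stab_of_rat hsys hsS hs' K κ u h2 h3
      · rw [Finset.card_image_of_injective _ Int.cast_injective]
        omega
    refine h1.trans (hq2deg.trans ?_)
    rw [mul_one]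
    exact hD2 j
  calc ((S.filter fun s => ¬ Stab g Y s s').card : ℝ) ≤ D2 := by exact_mod_cast hcard
    _ ≤ (max C₁ D2) * 1 := by rw [mul_one]; exact le_max_right _ _
    _ ≤ (max C₁ D2) * M ^ (1 - c) := by
      refine mul_le_mul_of_nonneg_left hpow ?_
      exact (Nat.cast_nonneg D2).trans (le_max_right _ _)

end Pool.Agent.Helper57.EP
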