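import Pool.Agent.Helper20.EP.Defs2

/-!
# EP part HITY: the algebra
-/

set_option autoImplicit false
set_option linter.all false

open Polynomial

namespace Pool.Agent.Helper57.EP

variable {d : ℕ}

section gen

variable {R : Type*} [CommRing R]

/-- the resolvent of a bijection -/
def Zu (K κ : ℕ) (a b : Fin d → R) (σ : Equiv.Perm (Fin d)) : R :=
  ∏ i, ((K : R) - a i - κ * b (σ i))

/-- the resolvent of a set of bijections -/
def Eu (K κ u : ℕ) (a b : Fin d → R) (Y : Finset (Equiv.Perm (Fin d))) : R :=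
  ∏ σ ∈ Y, ((u : R) - Zu K κ a b σ)

lemma Zu_perm (K κ : ℕ) (a b : Fin d → R) (τ ρ σ : Equiv.Perm (Fin d)) :
    Zu K κ (fun i => a (τ i)) (fun i => b (ρ i)) σ = Zu K κ a b (ρ * σ * τ⁻¹) := by
  unfold Zu
  refine Fintype.prod_equiv τ _ _ fun i => ?_
  simp

lemma Eu_perm (K κ u : ℕ) (a b : Fin d → R) (τ ρ : Equiv.Perm (Fin d))
    (Y : Finset (Equiv.Perm (Fin d))) :
    Eu K κ u (fun i => a (τ i)) (fun i => b (ρ i)) Y =
      Eu K κ u a b (Y.image fun σ => ρ * σ * τ⁻¹) := by
  unfold Eu
  rw [Finset.prod_image]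
  · refine Finset.prod_congr rfl fun σ _ => ?_
    rw [Zu_perm]
  · intro σ _ σ' _ h
    simpa using h

lemma map_Zu {S : Type*} [CommRing S] (f : R →+* S) (K κ : ℕ) (a b : Fin d → R)
    (σ : Equiv.Perm (Fin d)) :
    f (Zu K κ a b σ) = Zu K κ (fun i => f (a i)) (fun i => f (b i)) σ := by
  simp [Zu, map_prod]

lemma map_Eu {S : Type*} [CommRing S] (f : R →+* S) (K κ u : ℕ) (a b : Fin d → R)
    (Y : Finset (Equiv.Perm (Fin d))) :
    f (Eu K κ u a b Y) = Eu K κ u (fun i => f (a i)) (fun i => f (b i)) Y := by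
  simp [Eu, map_prod, map_Zu]

end gen

section sep

/-- separation of finitely many polynomials by a small natural number -/
lemma sep {α : Type*} [Fintype α] [DecidableEq α] (f : α → ℂ[X]) (hf : Function.Injective f)
    (D : ℕ) (hD : ∀ a, (f a).natDegree ≤ D) :
    ∃ n : ℕ, n ≤ Fintype.card α * Fintype.card α * D ∧
      Function.Injective fun a => (f a).eval (n : ℂ) := by
  classical
  let P : ℂ[X] := ∏ x : α × α, if x.1 = x.2 then 1 else f x.1 - f x.2
  have hP0 : P ≠ 0 := by
    rw [Finset.prod_ne_zero_iff]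
    intro x _
    split_ifs with h
    · exact one_ne_zero
    · intro h2
      exact h (hf (sub_eq_zero.1 h2))
  have hdeg : P.natDegree ≤ Fintype.card α * Fintype.card α * D := by
    refine (natDegree_prod_le _ _).trans ?_
    refine (Finset.sum_le_card_nsmul _ _ D ?_).trans ?_
    · intro x _
      split_ifs with h
      · simp
      · exact (natDegree_sub_le _ _).trans (max_le (hD _) (hD _))
    · rw [Finset.card_univ, Fintype.card_prod, smul_eq_mul]
  obtain ⟨n, hn, hn0⟩ : ∃ n ∈ Finset.range (P.natDegree + 1), P.eval (n : ℂ) ≠ 0 := by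
    by_contra hcon
    push Not at hcon
    apply hP0
    refine Polynomial.eq_zero_of_natDegree_lt_card_of_eval_eq_zero' P
      ((Finset.range (P.natDegree + 1)).image fun n : ℕ => (n : ℂ)) ?_ ?_
    · intro x hx
      obtain ⟨n, hn, rfl⟩ := Finset.mem_image.1 hx
      exact hcon n hn
    · rw [Finset.card_image_of_injective _ Nat.cast_injective, Finset.card_range]
      omega
  refine ⟨n, ?_, ?_⟩
  · have := Finset.mem_range.1 hn
    omega
  · intro a b hab
    by_contra hne
    apply hn0
    rw [eval_prod]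
    apply Finset.prod_eq_zero (Finset.mem_univ (a, b))
    rw [if_neg hne, eval_sub, sub_eq_zero]
    exact hab

/-- the size of the box -/
def box (d : ℕ) : ℕ := Fintype.card (Fin d × Fin d) * Fintype.card (Fin d × Fin d) * 1 +
  Fintype.card (Equiv.Perm (Fin d)) * Fintype.card (Equiv.Perm (Fin d)) * d +
  Fintype.card (Finset (Equiv.Perm (Fin d))) * Fintype.card (Finset (Equiv.Perm (Fin d))) *
    Fintype.card (Equiv.Perm (Fin d))

/-- separation of all sets of bijections -/
lemma exists_sep (a b : Fin d → ℂ) (ha : Function.Injective a) (hb : Function.Injective b) :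
    ∃ K κ u : ℕ, K ≤ box d ∧ κ ≤ box d ∧ u ≤ box d ∧
      Function.Injective (Eu K κ u a b) := by
  classical
  obtain ⟨κ, hκ, hκi⟩ := sep (fun x : Fin d × Fin d => (C (a x.1) + C (b x.2) * X : ℂ[X]))
    (by
      rintro ⟨i, j⟩ ⟨i', j'⟩ h
      have h0 := congrArg (fun p : ℂ[X] => p.coeff 0) h
      have h1 := congrArg (fun p : ℂ[X] => p.coeff 1) h
      simp only [coeff_add, coeff_C_zero, coeff_C_mul, coeff_X_zero, mul_zero, add_zero,
        coeff_C_succ, coeff_X_one, mul_one, zero_add] at h0 h1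
      have h1' : b j = b j' := by
        simpa [coeff_C] using h1
      rw [ha h0, hb h1']) 1
    (by
      intro x
      refine (natDegree_add_le _ _).trans (max_le (by simp) ?_)
      exact (natDegree_C_mul_le _ _).trans natDegree_X_le)
  simp only [eval_add, eval_C, eval_mul, eval_X] at hκi
  obtain ⟨K, hK, hKi⟩ := sep
    (fun σ : Equiv.Perm (Fin d) => (∏ i, (X - C (a i + κ * b (σ i))) : ℂ[X]))
    (by
      intro σ σ' h
      ext i
      have h1 : (∏ j, (X - C (a j + κ * b (σ' j))) : ℂ[X]).eval (a i + κ * b (σ i)) = 0 := by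
        have h2 : (∏ j, (X - C (a j + κ * b (σ j))) : ℂ[X]).eval (a i + κ * b (σ i)) = 0 := by
          rw [eval_prod]
          exact Finset.prod_eq_zero (Finset.mem_univ i) (by simp)
        rw [← h2]
        exact congrArg _ h.symm
      rw [eval_prod, Finset.prod_eq_zero_iff] at h1
      obtain ⟨j, _, hj⟩ := h1
      rw [eval_sub, eval_X, eval_C, sub_eq_zero] at hj
      have h3 : ((i, σ i) : Fin d × Fin d) = (j, σ' j) := by
        apply hκi
        show a i + b (σ i) * κ = a j + b (σ' j) * κ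
        rw [mul_comm, hj, mul_comm]
      have h4 : i = j := congrArg Prod.fst h3
      have h5 : σ i = σ' j := congrArg Prod.snd h3
      rw [h5, h4]) d
    (by
      intro σ
      rw [natDegree_prod_of_monic _ _ (fun i _ => monic_X_sub_C _),
        Finset.sum_congr rfl fun i _ => natDegree_X_sub_C _]
      simp)
  have hKi' : Function.Injective fun σ : Equiv.Perm (Fin d) => Zu K κ a b σ := by
    intro σ σ' h
    apply hKi
    simp only [eval_prod, eval_sub, eval_X, eval_C]
    simp only [Zu] at h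
    simpa [sub_sub] using h
  obtain ⟨u, hu, hui⟩ := sep
    (fun Y : Finset (Equiv.Perm (Fin d)) => (∏ σ ∈ Y, (X - C (Zu K κ a b σ)) : ℂ[X]))
    (by
      have key : ∀ Y Y' : Finset (Equiv.Perm (Fin d)),
          (∏ σ ∈ Y, (X - C (Zu K κ a b σ)) : ℂ[X]) = ∏ σ ∈ Y', (X - C (Zu K κ a b σ)) →
          Y ⊆ Y' := by
        intro Y Y' h σ hσ
        have h2 : (∏ σ ∈ Y, (X - C (Zu K κ a b σ)) : ℂ[X]).eval (Zu K κ a b σ) = 0 := by
          rw [eval_prod]
          exact Finset.prod_eq_zero hσ (by simp)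
        rw [h, eval_prod, Finset.prod_eq_zero_iff] at h2
        obtain ⟨τ, hτ, h3⟩ := h2
        rw [eval_sub, eval_X, eval_C, sub_eq_zero] at h3
        rwa [hKi' h3]
      intro Y Y' h
      exact Finset.Subset.antisymm (key Y Y' h) (key Y' Y h.symm))
    (Fintype.card (Equiv.Perm (Fin d)))
    (by
      intro Y
      rw [natDegree_prod_of_monic _ _ (fun i _ => monic_X_sub_C _)]
      simpa using Finset.card_le_univ Y)
  refine ⟨K, κ, u, ?_, ?_, ?_, ?_⟩
  · unfold box; omega
  · unfold box; omega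
  · unfold box; omega
  · intro Y Y' h
    apply hui
    simp only [eval_prod, eval_sub, eval_X, eval_C]
    exact h

end sep

section sym

open MvPolynomial in
/-- degree bound for substitutions, inner variables -/
lemma deg_inner {τ : Type*} (r : MvPolynomial τ ℤ) : ∃ B : ℕ, ∀ (f : τ → ℂ[X]) (n : ℕ),
    (∀ j, (f j).natDegree ≤ n) →
      (MvPolynomial.eval₂ (Int.castRingHom ℂ[X]) f r).natDegree ≤ B * n := by
  induction r using MvPolynomial.induction_on with
  | C a =>
    refine ⟨0, fun f n _ => ?_⟩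
    rw [MvPolynomial.eval₂_C]
    simp
  | add p q hp hq =>
    obtain ⟨Bp, hp⟩ := hp
    obtain ⟨Bq, hq⟩ := hq
    refine ⟨Bp + Bq, fun f n h => ?_⟩
    rw [MvPolynomial.eval₂_add]
    refine (natDegree_add_le _ _).trans (max_le ((hp f n h).trans ?_) ((hq f n h).trans ?_))
    · exact Nat.mul_le_mul_right _ (by omega)
    · exact Nat.mul_le_mul_right _ (by omega)
  | mul_X p j hp =>
    obtain ⟨Bp, hp⟩ := hp
    refine ⟨Bp + 1, fun f n h => ?_⟩
    rw [MvPolynomial.eval₂_mul, MvPolynomial.eval₂_X]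
    refine natDegree_mul_le.trans ?_
    have := hp f n h
    have := h j
    rw [add_mul, one_mul]
    omega

/-- degree bound for substitutions -/
lemma deg_outer {τ σ : Type*} (G : MvPolynomial σ (MvPolynomial τ ℤ)) : ∃ B : ℕ,
    ∀ (f : τ → ℂ[X]) (ε : σ → ℂ[X]) (n : ℕ), (∀ j, (f j).natDegree ≤ n) →
      (∀ j, (ε j).natDegree ≤ n) →
      (MvPolynomial.eval₂ (MvPolynomial.eval₂Hom (Int.castRingHom ℂ[X]) f) ε G).natDegree ≤
        B * n := by
  induction G using MvPolynomial.induction_on with
  | C a =>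
    obtain ⟨B, hB⟩ := deg_inner a
    refine ⟨B, fun f ε n h _ => ?_⟩
    rw [MvPolynomial.eval₂_C]
    exact hB f n h
  | add p q hp hq =>
    obtain ⟨Bp, hp⟩ := hp
    obtain ⟨Bq, hq⟩ := hq
    refine ⟨Bp + Bq, fun f ε n h h' => ?_⟩
    rw [MvPolynomial.eval₂_add]
    refine (natDegree_add_le _ _).trans (max_le ((hp f ε n h h').trans ?_)
      ((hq f ε n h h').trans ?_))
    · exact Nat.mul_le_mul_right _ (by omega)
    · exact Nat.mul_le_mul_right _ (by omega)
  | mul_X p j hp =>
    obtain ⟨Bp, hp⟩ := hp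
    refine ⟨Bp + 1, fun f ε n h h' => ?_⟩
    rw [MvPolynomial.eval₂_mul, MvPolynomial.eval₂_X]
    refine natDegree_mul_le.trans ?_
    have := hp f ε n h h'
    have := h' j
    rw [add_mul, one_mul]
    omega

/-- the coefficients of `monC F w` are polynomials in `w` of degree at most one -/
lemma exists_coeff (F : ℤ[X]) (hF : 1 ≤ F.natDegree) (i : ℕ) :
    ∃ ε : ℂ[X], ε.natDegree ≤ 1 ∧
      ∀ w : ℂ, (Pool.Agent.Helper20.EP.monC F w).coeff i = ε.eval w := by
  have hinj : Function.Injective (Int.castRingHom ℂ) := Int.cast_injective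
  have hd : ∀ w : ℂ, (F.map (Int.castRingHom ℂ) - C w).natDegree = F.natDegree := by
    intro w
    rw [natDegree_sub_C, natDegree_map_eq_of_injective hinj]
  have hne : ∀ w : ℂ, F.map (Int.castRingHom ℂ) - C w ≠ 0 := by
    intro w h
    have := hd w
    rw [h, natDegree_zero] at this
    omega
  have hlc : ∀ w : ℂ, (F.map (Int.castRingHom ℂ) - C w).leadingCoeff =
      (F.leadingCoeff : ℂ) := by
    intro w
    rw [leadingCoeff, hd, coeff_sub, coeff_C, if_neg (by omega), sub_zero, coeff_map]
    rfl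
  by_cases hi : i = F.natDegree
  · refine ⟨1, by simp, fun w => ?_⟩
    subst hi
    rw [← hd w]
    unfold Pool.Agent.Helper20.EP.monC
    rw [integralNormalization_coeff_natDegree (hne w), eval_one]
  · refine ⟨(C ((F.coeff i : ℂ)) - if i = 0 then X else 0) *
      C ((F.leadingCoeff : ℂ) ^ (F.natDegree - 1 - i)), ?_, fun w => ?_⟩
    · refine (natDegree_mul_C_le _ _).trans ?_
      refine (natDegree_sub_le _ _).trans (max_le (by simp) ?_)
      split_ifs
      · exact natDegree_X_le
      · simp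
    · unfold Pool.Agent.Helper20.EP.monC
      rw [integralNormalization_coeff_ne_natDegree (by rw [hd]; exact hi), hd, hlc, coeff_sub,
        coeff_map, coeff_C]
      by_cases h0 : i = 0
      · subst h0
        simp
      · rw [if_neg h0, if_neg h0]
        simp

/-- The product over all permutations of the labels of a polynomial in the roots is a polynomial
in `w` of bounded degree. -/
lemma norm_poly (hd : 1 ≤ d) (f : MvPolynomial (Fin d) (MvPolynomial (Option (Fin d)) ℤ)) :
    ∃ B : ℕ, ∀ (F : ℤ[X]) (b : Fin d → ℂ) (Q : ℂ[X]) (n : ℕ), F.natDegree = d →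
      Q.natDegree ≤ n → 1 ≤ n → ∃ q : ℂ[X], q.natDegree ≤ B * n ∧
        ∀ (w : ℂ) (a : Fin d → ℂ), Pool.Agent.Helper20.EP.monC F w = ∏ i, (X - C (a i)) →
          q.eval w = ∏ τ : Equiv.Perm (Fin d), MvPolynomial.eval₂
            (MvPolynomial.eval₂Hom (Int.castRingHom ℂ) fun o => Option.elim o (Q.eval w) b)
            (fun i => a (τ i)) f := by
  classical
  let R := MvPolynomial (Option (Fin d)) ℤ
  let N : MvPolynomial (Fin d) R := ∏ τ : Equiv.Perm (Fin d), MvPolynomial.rename τ f
  have hN : N.IsSymmetric := by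
    intro ρ
    show MvPolynomial.rename ρ (∏ τ : Equiv.Perm (Fin d), MvPolynomial.rename τ f) = _
    rw [map_prod]
    refine Fintype.prod_equiv (Equiv.mulLeft ρ) _ _ fun τ => ?_
    rw [MvPolynomial.rename_rename]
    rfl
  obtain ⟨G, hG⟩ := MvPolynomial.esymmAlgHom_surjective (σ := Fin d) R (n := d) (by simp)
    ⟨N, hN⟩
  have hG' : MvPolynomial.aeval (fun i : Fin d => MvPolynomial.esymm (Fin d) R (i + 1)) G = N := by
    have h1 := congrArg Subtype.val hG
    rw [MvPolynomial.esymmAlgHom_apply] at h1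
    exact h1
  obtain ⟨B, hB⟩ := deg_outer G
  refine ⟨B, fun F b Q n hF hQ hn => ?_⟩
  choose ε hε1 hε2 using exists_coeff F (hF ▸ hd)
  refine ⟨MvPolynomial.eval₂ (MvPolynomial.eval₂Hom (Int.castRingHom ℂ[X])
    fun o => Option.elim o Q fun j => C (b j))
    (fun i : Fin d => C ((-1) ^ ((i : ℕ) + 1)) * ε (d - (i + 1))) G, hB _ _ n ?_ ?_, ?_⟩
  · rintro (_ | j)
    · exact hQ
    · show (C (b j)).natDegree ≤ n
      simp
  · intro j
    exact ((natDegree_C_mul_le _ _).trans (hε1 _)).trans hn
  · intro w a hw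
    have hesymm : ∀ i : Fin d, (C ((-1) ^ ((i : ℕ) + 1)) * ε (d - (i + 1))).eval w =
        (Finset.univ.val.map a).esymm ((i : ℕ) + 1) := by
      intro i
      rw [eval_mul, eval_C, ← hε2, hw]
      have h1 : (∏ i, (X - C (a i)) : ℂ[X]) =
          ((Finset.univ.val.map a).map fun t => X - C t).prod := by
        rw [Multiset.map_map]
        rfl
      have hi := i.2
      rw [h1, Multiset.prod_X_sub_C_coeff _ (by simp)]
      have h2 : Multiset.card (Finset.univ.val.map a) - (d - ((i : ℕ) + 1)) = (i : ℕ) + 1 := by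
        simp
        omega
      rw [h2, ← mul_assoc, ← pow_add, Even.neg_one_pow ⟨_, rfl⟩, one_mul]
    let φ : R →+* ℂ := MvPolynomial.eval₂Hom (Int.castRingHom ℂ)
      fun o => Option.elim o (Q.eval w) b
    have h3 : ∀ (p : MvPolynomial (Fin d) R), (evalRingHom w) (MvPolynomial.eval₂
        (MvPolynomial.eval₂Hom (Int.castRingHom ℂ[X]) fun o => Option.elim o Q fun j => C (b j))
        (fun i : Fin d => C ((-1) ^ ((i : ℕ) + 1)) * ε (d - (i + 1))) p) =
        MvPolynomial.eval₂ φ (fun i : Fin d => (Finset.univ.val.map a).esymm ((i : ℕ) + 1)) p := by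
      intro p
      rw [MvPolynomial.hom_eval₂]
      congr 1
      · apply MvPolynomial.ringHom_ext
        · intro r
          simp [φ]
        · rintro (_ | j)
          · simp [φ]
          · simp [φ]
      · funext i
        exact hesymm i
    rw [← coe_evalRingHom, h3]
    letI := φ.toAlgebra
    have h4 : ∀ (p : MvPolynomial (Fin d) R), MvPolynomial.eval₂ φ a (MvPolynomial.aeval
        (fun i : Fin d => MvPolynomial.esymm (Fin d) R (i + 1)) p) =
        MvPolynomial.eval₂ φ (fun i : Fin d => (Finset.univ.val.map a).esymm ((i : ℕ) + 1)) p := by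
      intro p
      have h5 := MvPolynomial.aeval_esymm_eq_multiset_esymm (Fin d) R (S := ℂ)
      have h6 : (MvPolynomial.aeval a : MvPolynomial (Fin d) R →ₐ[R] ℂ) (MvPolynomial.aeval
        (fun i : Fin d => MvPolynomial.esymm (Fin d) R (i + 1)) p) =
        MvPolynomial.aeval (fun i : Fin d => (Finset.univ.val.map a).esymm ((i : ℕ) + 1)) p := by
        rw [← AlgHom.comp_apply]
        congr 1
        apply MvPolynomial.algHom_ext
        intro i
        rw [AlgHom.comp_apply, MvPolynomial.aeval_X, MvPolynomial.aeval_X, h5]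
      exact h6
    rw [← h4, hG']
    show MvPolynomial.eval₂Hom φ a (∏ τ : Equiv.Perm (Fin d), MvPolynomial.rename τ f) = _
    rw [map_prod]
    refine Finset.prod_congr rfl fun τ _ => ?_
    rw [MvPolynomial.coe_eval₂Hom, MvPolynomial.eval₂_rename]
    rfl

end sym

end Pool.Agent.Helper57.EP
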